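import Pool.Agent.H51.MO.TargetsB

/-!
# MP_c62aed_lc: row B_MLIM (the exponents tend to one)
-/

namespace Pool.Agent.H26.MO

open Finset Pool.Agent.H51.MO
open Filter Topology

theorem hardW_eps {k : ℕ} {ε ε' c : ℝ} (h : ε' ≤ ε) (hH : HardW k ε' c) : HardW k ε c := by
  obtain ⟨K, γ, hγ, n₀, hn⟩ := hH
  refine ⟨K, γ, hγ, n₀, fun n hnn => ?_⟩
  obtain ⟨Y, m, phi, hY, h1, h2⟩ := hn n hnn
  refine ⟨Y, m, phi, hY, fun a => ?_, h2⟩
  obtain ⟨p1, p2, p3, p4⟩ := h1 a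
  refine ⟨p1, p2, p3, fun x => le_trans ?_ (p4 x)⟩
  exact mul_le_mul_of_nonneg_right (by linarith) (by positivity)

theorem pf_MLIM : S_MLIM := by
  intro hP hC hS h3 ε hε
  set S : ℕ → Set ℝ := fun k => {c | c ≤ 1 ∧ HardW k ε c} with hSdef
  have hbdd : ∀ k, BddAbove (S k) := fun k => ⟨1, fun c hc => hc.1⟩
  have hle : ∀ k, ∀ c ∈ S k, c ≤ sSup (S k) := fun k c hc => le_csSup (hbdd k) hc
  obtain ⟨c3, hc3, hH3⟩ := h3 ε hε
  have hm1 : min c3 1 ≤ c3 := min_le_left _ _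
  have hm2 : min c3 1 ≤ 1 := min_le_right _ _
  have hm0 : 0 < min c3 1 := lt_min hc3 one_pos
  have hmem3 : ∀ k, 3 ≤ k → min c3 1 / 2 ∈ S k := fun k hk =>
    ⟨by linarith, hP 3 k ε c3 _ hk (by linarith) hH3⟩
  have hspos : ∀ k, 3 ≤ k → 0 < sSup (S k) := fun k hk =>
    lt_of_lt_of_le (by linarith) (hle k _ (hmem3 k hk))
  have hs1 : ∀ k, 3 ≤ k → sSup (S k) ≤ 1 := fun k hk =>
    csSup_le ⟨_, hmem3 k hk⟩ (fun c hc => hc.1)
  have hlim : ∀ e : ℝ, 0 < e → ∃ w : ℕ, ∀ k, w ≤ k → 1 - e ≤ sSup (S k) := by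
    intro e he
    have he1 : min (e / 2) ε ≤ e / 2 := min_le_left _ _
    have he2 : min (e / 2) ε ≤ ε := min_le_right _ _
    have he0 : 0 < min (e / 2) ε := lt_min (by linarith) hε
    obtain ⟨w, hH⟩ := hS (min (e / 2) ε) he0
    refine ⟨w, fun k hk => ?_⟩
    have h1 : HardW k (min (e / 2) ε) (1 - 2 * min (e / 2) ε) :=
      hP w k _ _ _ hk (by linarith) hH
    have h2 : HardW k ε (1 - 2 * min (e / 2) ε) := hardW_eps he2 h1
    have h4 := hle k _ (show 1 - 2 * min (e / 2) ε ∈ S k from ⟨by linarith, h2⟩)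
    linarith
  have hfac : ∀ k : ℕ, 0 < 1 - 1 / ((k : ℝ) + 2) ∧ 1 - 1 / ((k : ℝ) + 2) < 1 := by
    intro k
    have hk : (0 : ℝ) ≤ k := Nat.cast_nonneg k
    have h1 : 0 < 1 / ((k : ℝ) + 2) := by positivity
    have h2 : 1 / ((k : ℝ) + 2) < 1 := by
      rw [div_lt_one (by linarith)]
      linarith
    constructor <;> linarith
  refine ⟨fun k => if 3 ≤ k then sSup (S k) * (1 - 1 / ((k : ℝ) + 2)) else 1, ?_, ?_, ?_⟩
  · intro k hk
    simp only [hk, if_true]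
    exact mul_pos (hspos k hk) (hfac k).1
  · rw [Metric.tendsto_atTop]
    intro e he
    obtain ⟨w, hw⟩ := hlim (e / 2) (by linarith)
    obtain ⟨n, hn⟩ := exists_nat_one_div_lt (show 0 < e / 2 by linarith)
    refine ⟨max 3 (max w n), fun k hk => ?_⟩
    have hk3 : 3 ≤ k := le_trans (le_max_left _ _) hk
    have hkw : w ≤ k := le_trans (le_trans (le_max_left _ _) (le_max_right _ _)) hk
    have hkn : n ≤ k := le_trans (le_trans (le_max_right _ _) (le_max_right _ _)) hk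
    simp only [hk3, if_true]
    have a1 := hw k hkw
    have a2 := hs1 k hk3
    have a3 : 1 / ((k : ℝ) + 2) ≤ 1 / ((n : ℝ) + 1) := by
      have : (n : ℝ) ≤ k := by exact_mod_cast hkn
      have hn0 : (0 : ℝ) ≤ n := Nat.cast_nonneg n
      exact one_div_le_one_div_of_le (by linarith) (by linarith)
    have a4 : 0 < 1 / ((k : ℝ) + 2) := by positivity
    have a5 := hspos k hk3
    have a6 := (hfac k).2
    rw [Real.dist_eq, abs_lt]
    constructor
    · nlinarith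
    · nlinarith
  · intro k hk
    simp only [hk, if_true]
    have h0 : 0 < sSup (S k) * (1 - 1 / ((k : ℝ) + 2)) := mul_pos (hspos k hk) (hfac k).1
    have h1 : sSup (S k) * (1 - 1 / ((k : ℝ) + 2)) < sSup (S k) := by
      have := hspos k hk
      have := (hfac k).2
      nlinarith
    obtain ⟨c, hc, hlt⟩ := exists_lt_of_lt_csSup ⟨_, hmem3 k hk⟩ h1
    exact hC k ε c _ h0 hlt hc.2

end Pool.Agent.H26.MO
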